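import Pool.Agent.Y6.F.Chn

/-!
Growth of the levels of the chain.
-/

open Set Filter Topology
open scoped ComplexConjugate

set_option autoImplicit false

namespace Pool.Agent.Y809.EF.CH3

open Pool.Agent.Y6.F
open Pool.Agent.Y6.M (cX cY Uth εc x0)

/-! ### the sequence `α` -/

section alpha

variable {α : ℕ → ℝ} {G : ℕ → ℂ} {b d : ℕ → ℝ} (hC : ChnF α G b d)

include hC

theorem al_ge (n : ℕ) : 10 ^ 100 * 4 ^ n ≤ α n := by
  induction n with
  | zero => simpa using hC.A0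
  | succ n ih =>
    rw [hC.step]
    have h0 : (1 : ℝ) ≤ 4 ^ n := one_le_pow₀ (by norm_num)
    have h4 : (4 : ℝ) ≤ α n := by
      have : (4 : ℝ) ≤ 10 ^ 100 * 4 ^ n := by nlinarith
      linarith
    have h2 : α n ^ 2 ≤ α n ^ (2 * n + 60) := pow_le_pow_right₀ (by linarith) (by omega)
    refine le_trans ?_ h2
    calc (10 : ℝ) ^ 100 * 4 ^ (n + 1) = (10 ^ 100 * 4 ^ n) * 4 := by ring
      _ ≤ α n * α n := mul_le_mul ih h4 (by norm_num) (by linarith)
      _ = α n ^ 2 := by ring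

theorem al_big (n : ℕ) : 10 ^ 100 ≤ α n := by
  have h0 : (1 : ℝ) ≤ 4 ^ n := one_le_pow₀ (by norm_num)
  have := al_ge hC n
  nlinarith

theorem al_one (n : ℕ) : 1 ≤ α n := by
  have := al_big hC n
  have h : (1 : ℝ) ≤ 10 ^ 100 := by norm_num
  linarith

theorem al_pos (n : ℕ) : 0 < α n := lt_of_lt_of_le one_pos (al_one hC n)

theorem al_two (n : ℕ) : 2 ^ n ≤ α n := by
  have h0 : (1 : ℝ) ≤ 4 ^ n := one_le_pow₀ (by norm_num)
  have h1 : (2 : ℝ) ^ n ≤ 4 ^ n := pow_le_pow_left₀ (by norm_num) (by norm_num) n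
  have := al_ge hC n
  nlinarith

theorem al_quad (n : ℕ) : ((n : ℝ) + 2) * (2 * n + 60) ≤ α n := by
  have h1 : (n : ℝ) ≤ 2 ^ n := by exact_mod_cast (Nat.lt_two_pow_self (n := n)).le
  have h2 : (1 : ℝ) ≤ 2 ^ n := one_le_pow₀ (by norm_num)
  have h3 : (n : ℝ) + 2 ≤ 3 * 2 ^ n := by linarith
  have h4 : 2 * (n : ℝ) + 60 ≤ 62 * 2 ^ n := by linarith
  have h5 : (2 : ℝ) ^ n * 2 ^ n = 4 ^ n := by rw [← mul_pow]; norm_num
  have h6 : ((n : ℝ) + 2) * (2 * n + 60) ≤ (3 * 2 ^ n) * (62 * 2 ^ n) :=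
    mul_le_mul h3 h4 (by positivity) (by positivity)
  have h7 : (3 * 2 ^ n) * (62 * 2 ^ n) = 186 * (4 : ℝ) ^ n := by rw [← h5]; ring
  have h8 := al_ge hC n
  have h9 : (0 : ℝ) < 4 ^ n := by positivity
  nlinarith

theorem bpos (n : ℕ) : 0 < b n := lt_of_lt_of_le (hC.dpos n) (hC.db n)

theorem Gpos (n : ℕ) : 0 < ‖G n‖ := by
  have h1 := hC.lo n
  have h2 := al_pos hC n
  by_contra h
  have h3 : ‖G n‖ = 0 := le_antisymm (not_lt.1 h) (norm_nonneg _)
  rw [h3, zero_mul] at h1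
  linarith

theorem Uth_sq (n : ℕ) : Uth α n ^ 2 = (α n)⁻¹ := by
  unfold Uth
  rw [inv_pow, Real.sq_sqrt (al_pos hC n).le]

theorem Uth_pos (n : ℕ) : 0 < Uth α n := inv_pos.2 (Real.sqrt_pos.2 (al_pos hC n))

theorem Uth_one (n : ℕ) : Uth α n ≤ 1 := by
  have h1 := Uth_sq hC n
  have h2 : (α n)⁻¹ ≤ 1 := inv_le_one_of_one_le₀ (al_one hC n)
  have h3 := Uth_pos hC n
  nlinarith

theorem eps_pos (n : ℕ) : 0 < εc α n := inv_pos.2 (pow_pos (al_pos hC n) _)

theorem kap_pos (n : ℕ) : 0 < κr α n := by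
  cases n with
  | zero => exact inv_pos.2 (al_pos hC 0)
  | succ n => exact inv_pos.2 (pow_pos (al_pos hC n) _)

/-- the drain is dominated by the size of the perturbations -/
theorem drain_num (n : ℕ) : 24 * α (n + 1) * (α (n + 2))⁻¹ ≤ κr α (n + 1) * εc α (n + 1) := by
  have ha := al_one hC n
  have hA := al_one hC (n + 1)
  have hAp := al_pos hC (n + 1)
  have hap := al_pos hC n
  have h24 : 24 ≤ α (n + 1) := by
    have := al_big hC (n + 1)
    have h : (24 : ℝ) ≤ 10 ^ 100 := by norm_num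
    linarith
  have h4 : α n ^ 4 ≤ α (n + 1) := by
    rw [hC.step n]
    exact pow_le_pow_right₀ ha (by omega)
  have e1 : κr α (n + 1) * εc α (n + 1) = (α n ^ 4 * α (n + 1) ^ (n + 1 + 1))⁻¹ := by
    unfold κr εc
    rw [mul_inv]
  have e2 : 24 * α (n + 1) * (α (n + 2))⁻¹ = (24 * α (n + 1)) / α (n + 1) ^ (2 * (n + 1) + 60) := by
    rw [show n + 2 = (n + 1) + 1 from rfl, hC.step (n + 1), div_eq_mul_inv]
  rw [e1, e2, ← one_div, div_le_div_iff₀ (by positivity) (by positivity), one_mul]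
  calc 24 * α (n + 1) * (α n ^ 4 * α (n + 1) ^ (n + 1 + 1))
      ≤ α (n + 1) * α (n + 1) * (α (n + 1) * α (n + 1) ^ (n + 1 + 1)) := by gcongr
    _ = α (n + 1) ^ (n + 5) := by ring
    _ ≤ α (n + 1) ^ (2 * (n + 1) + 60) := pow_le_pow_right₀ hA (by omega)

theorem drain0_num : 24 * α 0 * (α 1)⁻¹ ≤ 1 / 10 ^ 7 := by
  have hA := al_one hC 0
  have hAp := al_pos hC 0
  have hb := al_big hC 0
  have h1 : α 0 ^ 2 ≤ α 1 := by
    rw [show (1 : ℕ) = 0 + 1 from rfl, hC.step 0]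
    exact pow_le_pow_right₀ hA (by omega)
  have h2 : (α 1)⁻¹ ≤ (α 0 ^ 2)⁻¹ := inv_anti₀ (by positivity) h1
  have h3 : 24 * α 0 * (α 1)⁻¹ ≤ 24 * α 0 * (α 0 ^ 2)⁻¹ :=
    mul_le_mul_of_nonneg_left h2 (by positivity)
  have h4 : 24 * α 0 * (α 0 ^ 2)⁻¹ = 24 / α 0 := by field_simp
  rw [h4] at h3
  refine h3.trans ?_
  rw [div_le_div_iff₀ hAp (by norm_num)]
  have : (24 : ℝ) * 10 ^ 7 ≤ 10 ^ 100 := by norm_num
  linarith

theorem kap0_num : κr α 0 ≤ 1 / 10 ^ 7 := by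
  have hAp := al_pos hC 0
  have hb := al_big hC 0
  unfold κr
  rw [← one_div, div_le_div_iff₀ hAp (by norm_num)]
  have : (1 : ℝ) * 10 ^ 7 ≤ 10 ^ 100 := by norm_num
  linarith

/-- `κ (1 + Λ)` is small -/
theorem lam_num (n : ℕ) :
    2 * κr α (n + 1) * (1 + Real.log (5 / εc α (n + 1))) ≤ (1 / 2) ^ n / 10 ^ 10 := by
  have hap := al_pos hC n
  have hAp := al_pos hC (n + 1)
  have h1 := al_one hC n
  have e1 : Real.log (5 / εc α (n + 1)) =
      Real.log 5 + ((n : ℝ) + 2) * ((2 * n + 60) * Real.log (α n)) := by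
    unfold εc
    rw [div_inv_eq_mul, Real.log_mul (by norm_num) (by positivity), Real.log_pow, hC.step n,
      Real.log_pow]
    push_cast
    ring
  have h5 : Real.log 5 ≤ 4 := by
    have := Real.log_le_sub_one_of_pos (show (0 : ℝ) < 5 by norm_num)
    linarith
  have hl : Real.log (α n) ≤ α n := by
    have := Real.log_le_sub_one_of_pos hap
    linarith
  have hl0 : 0 ≤ Real.log (α n) := Real.log_nonneg h1
  have h6 : ((n : ℝ) + 2) * ((2 * n + 60) * Real.log (α n)) ≤ α n * α n := by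
    rw [← mul_assoc]
    exact mul_le_mul (al_quad hC n) hl hl0 hap.le
  have h7 : 1 + Real.log (5 / εc α (n + 1)) ≤ 6 * (α n) ^ 2 := by
    rw [e1]
    nlinarith
  have e2 : 2 * κr α (n + 1) = 2 / α n ^ 4 := by
    unfold κr
    rw [div_eq_mul_inv]
  have h8 : 2 * κr α (n + 1) * (1 + Real.log (5 / εc α (n + 1))) ≤ 12 / α n ^ 2 := by
    rw [e2]
    calc 2 / α n ^ 4 * (1 + Real.log (5 / εc α (n + 1))) ≤ 2 / α n ^ 4 * (6 * (α n) ^ 2) :=
          mul_le_mul_of_nonneg_left h7 (by positivity)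
      _ = 12 / α n ^ 2 := by field_simp; norm_num
  refine h8.trans ?_
  have h9 : (1 / 2 : ℝ) ^ n / 10 ^ 10 = 1 / (2 ^ n * 10 ^ 10) := by
    rw [one_div_pow]
    field_simp
  rw [h9, div_le_div_iff₀ (by positivity) (by positivity), one_mul]
  have hb : (10 : ℝ) ^ 100 ≤ α n := al_big hC n
  have ht := al_two hC n
  have h10 : 12 * (2 ^ n * 10 ^ 10) ≤ α n * (10 : ℝ) ^ 100 := by
    have : (12 : ℝ) * 10 ^ 10 ≤ 10 ^ 100 := by norm_num
    calc 12 * (2 ^ n * 10 ^ 10) = (2 : ℝ) ^ n * (12 * 10 ^ 10) := by ring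
      _ ≤ α n * 10 ^ 100 := mul_le_mul ht this (by norm_num) hap.le
  have h11 : α n * (10 : ℝ) ^ 100 ≤ α n * α n := mul_le_mul_of_nonneg_left hb hap.le
  nlinarith

end alpha

/-! ### the levels -/

section lev

variable {α : ℕ → ℝ} {G : ℕ → ℂ} {b d : ℕ → ℝ} (hC : ChnF α G b d) {N : ℕ} {θ : ℝ}
  {x y f g : ℕ → ℝ → ℂ}

/-- the size of the drain -/
theorem drain_le (hC : ChnF α G b d) (hU : Cnd α x y θ) (m : ℕ) {t : ℝ} (ht : t ∈ Icc 0 θ) :
    ‖conj (G m) * ((b m + d m : ℝ) : ℂ) * y m t * conj (x (m + 1) t)‖ ≤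
      24 * α m * (α (m + 1))⁻¹ := by
  obtain ⟨h1, h2⟩ := hU m t ht
  have hb := bpos hC m
  have hd := hC.dpos m
  have hG := Gpos hC m
  have hU0 := Uth_pos hC (m + 1)
  rw [norm_mul, norm_mul, norm_mul, RCLike.norm_conj, RCLike.norm_conj, Complex.norm_real,
    Real.norm_eq_abs, abs_of_pos (by linarith)]
  have h3 : ‖y m t‖ * ‖x (m + 1) t‖ ≤ (2 * Uth α (m + 1)) * (2 * Uth α (m + 1)) :=
    mul_le_mul h2 h1 (norm_nonneg _) (by positivity)
  have h4 : ‖G m‖ * (b m + d m) ≤ 6 * α m := by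
    have := hC.hi m
    have h5 : ‖G m‖ * d m ≤ ‖G m‖ * b m := mul_le_mul_of_nonneg_left (hC.db m) hG.le
    linarith
  calc ‖G m‖ * (b m + d m) * ‖y m t‖ * ‖x (m + 1) t‖ =
        (‖G m‖ * (b m + d m)) * (‖y m t‖ * ‖x (m + 1) t‖) := by ring
    _ ≤ (6 * α m) * ((2 * Uth α (m + 1)) * (2 * Uth α (m + 1))) :=
        mul_le_mul h4 h3 (by positivity) (by have := al_pos hC m; positivity)
    _ = 24 * α m * Uth α (m + 1) ^ 2 := by ring
    _ = _ := by rw [Uth_sq hC]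

/-- level zero -/
theorem lvl0 (hC : ChnF α G b d) (hθ' : θ ≤ 1) (hD : DSol G b d N 0 θ x y f g)
    (h0 : ∀ n ≤ N, x n 0 = (x0 α n : ℝ)) (hU : Cnd α x y θ) (hP : Prt α x y f g θ) :
    ∀ t ∈ Icc (0 : ℝ) θ, ‖x 0 t - 1 / 2‖ ≤ 1 / 10 ^ 6 := by
  intro t ht
  have h1 := norm_image_sub_le_of_norm_deriv_le_segment' (C := 1 / 10 ^ 6)
    (fun s hs => hD.dx 0 (Nat.zero_le _) s hs) (fun s hs => by
      have hs' : s ∈ Icc 0 θ := ⟨hs.1, hs.2.le⟩
      have h2 := drain_le hC hU 0 hs'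
      have h3 := drain0_num hC
      have h4 := (hP 0 s hs').1
      have h5 := kap0_num hC
      have e1 : Mx α x y 0 s = 1 := rfl
      rw [e1, mul_one] at h4
      have e2 : cX G b d (fun m => x m s) (fun m => y m s) 0 =
        -(conj (G 0) * ((b 0 + d 0 : ℝ) : ℂ) * y 0 s * conj (x (0 + 1) s)) := rfl
      rw [e2]
      refine (norm_add_le _ _).trans ?_
      rw [norm_neg]
      have c1 : (1 : ℝ) / 10 ^ 7 + 1 / 10 ^ 7 ≤ 1 / 10 ^ 6 := by norm_num
      exact (add_le_add (h2.trans h3) (h4.trans h5)).trans c1) t ht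
  have e3 : x 0 0 = 1 / 2 := by
    rw [h0 0 (Nat.zero_le _)]
    show (((1 / 2 : ℝ)) : ℂ) = 1 / 2
    push_cast
    rfl
  rw [e3] at h1
  refine h1.trans ?_
  have h7 : t ≤ 1 := ht.2.trans hθ'
  have h8 : 0 ≤ t := ht.1
  norm_num
  linarith

/-- the running maximum is attained -/
theorem mx_att (hC : ChnF α G b d) (hD : DSol G b d N 0 θ x y f g)
    (h0 : ∀ n ≤ N, x n 0 = (x0 α n : ℝ)) {n : ℕ} (hn : n < N) {t : ℝ} (ht : t ∈ Icc 0 θ) :
    ∃ s ∈ Icc 0 t, Mx α x y (n + 1) t ≤ max ‖x (n + 1) s‖ ‖y n s‖ := by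
  have hsub : Icc 0 t ⊆ Icc 0 θ := Icc_subset_Icc_right ht.2
  have hcx : ContinuousOn (x (n + 1)) (Icc 0 t) := fun s hs =>
    ((hD.dx (n + 1) hn s (hsub hs)).continuousWithinAt).mono hsub
  have hcy : ContinuousOn (y n) (Icc 0 t) := fun s hs =>
    ((hD.dy n hn s (hsub hs)).continuousWithinAt).mono hsub
  have hc : ContinuousOn (fun s => max ‖x (n + 1) s‖ ‖y n s‖) (Icc 0 t) :=
    continuous_max.comp_continuousOn (hcx.norm.prodMk hcy.norm)
  have hne : (Icc 0 t).Nonempty := nonempty_Icc.2 ht.1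
  obtain ⟨s, hs, hmax⟩ := isCompact_Icc.exists_isMaxOn hne hc
  refine ⟨s, hs, max_le ?_ ?_⟩
  · have h1 : max ‖x (n + 1) 0‖ ‖y n 0‖ ≤ max ‖x (n + 1) s‖ ‖y n s‖ :=
      isMaxOn_iff.1 hmax 0 (left_mem_Icc.2 ht.1)
    refine le_trans ?_ h1
    refine le_trans (le_of_eq ?_) (le_max_left _ _)
    rw [h0 (n + 1) hn, Complex.norm_real, Real.norm_eq_abs]
    exact (abs_of_pos (eps_pos hC (n + 1))).symm
  · refine csSup_le (hne.image _) ?_
    rintro _ ⟨r, hr, rfl⟩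
    exact isMaxOn_iff.1 hmax r hr

theorem eps_le_mx (n : ℕ) (t : ℝ) : εc α (n + 1) ≤ Mx α x y (n + 1) t := le_max_left _ _

/-- the phase -/
noncomputable def ph (G : ℕ → ℂ) (n : ℕ) : ℂ := conj (G n) / ((‖G n‖ : ℝ) : ℂ)

theorem norm_ph (hC : ChnF α G b d) (n : ℕ) : ‖ph G n‖ = 1 := by
  unfold ph
  rw [norm_div, RCLike.norm_conj, Complex.norm_real, Real.norm_eq_abs, abs_of_pos (Gpos hC n),
    div_self (Gpos hC n).ne']

/-- the components of the pair -/
noncomputable def pA (d : ℕ → ℝ) (x : ℕ → ℝ → ℂ) (n : ℕ) (t : ℝ) : ℂ :=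
  ((√(d n) : ℝ) : ℂ) * x (n + 1) t

/-- the components of the pair -/
noncomputable def pB (G : ℕ → ℂ) (b : ℕ → ℝ) (y : ℕ → ℝ → ℂ) (n : ℕ) (t : ℝ) : ℂ :=
  ((√(b n) : ℝ) : ℂ) * ph G n * y n t

/-- the components of the pair -/
noncomputable def pF (G : ℕ → ℂ) (b d : ℕ → ℝ) (x y f : ℕ → ℝ → ℂ) (n : ℕ) (t : ℝ) : ℂ :=
  ((√(d n) : ℝ) : ℂ) * (-(conj (G (n + 1)) * ((b (n + 1) + d (n + 1) : ℝ) : ℂ) * y (n + 1) t *
    conj (x (n + 1 + 1) t)) + f (n + 1) t)

/-- the components of the pair -/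
noncomputable def pH (G : ℕ → ℂ) (b : ℕ → ℝ) (g : ℕ → ℝ → ℂ) (n : ℕ) (t : ℝ) : ℂ :=
  ((√(b n) : ℝ) : ℂ) * ph G n * g n t

/-- the rate of the pair -/
noncomputable def pρ (G : ℕ → ℂ) (b d : ℕ → ℝ) (n : ℕ) : ℝ := ‖G n‖ * (√(b n) * √(d n))

theorem norm_pA (n : ℕ) (t : ℝ) : ‖pA d x n t‖ = √(d n) * ‖x (n + 1) t‖ := by
  unfold pA
  rw [norm_mul, Complex.norm_real, Real.norm_eq_abs, abs_of_nonneg (Real.sqrt_nonneg _)]

theorem norm_pB (hC : ChnF α G b d) (n : ℕ) (t : ℝ) : ‖pB G b y n t‖ = √(b n) * ‖y n t‖ := by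
  unfold pB
  rw [norm_mul, norm_mul, norm_ph hC, Complex.norm_real, Real.norm_eq_abs,
    abs_of_nonneg (Real.sqrt_nonneg _), mul_one]

theorem sqrt_db (hC : ChnF α G b d) (n : ℕ) : √(d n) ≤ √(b n) := Real.sqrt_le_sqrt (hC.db n)

theorem sqrt_bd (hC : ChnF α G b d) (n : ℕ) : √(b n) ≤ 3 / 2 * √(d n) := by
  rw [show (3 / 2 : ℝ) * √(d n) = √((3 / 2) ^ 2 * d n) by
    rw [Real.sqrt_mul (by norm_num), Real.sqrt_sq (by norm_num)]]
  apply Real.sqrt_le_sqrt
  have := hC.bd n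
  have := hC.dpos n
  linarith

theorem rho_lo (hC : ChnF α G b d) (n : ℕ) : α n ≤ pρ G b d n := by
  have h1 := hC.lo n
  have h2 : √(d n) * √(d n) = d n := Real.mul_self_sqrt (hC.dpos n).le
  have h3 : √(d n) * √(d n) ≤ √(b n) * √(d n) :=
    mul_le_mul_of_nonneg_right (sqrt_db hC n) (Real.sqrt_nonneg _)
  rw [h2] at h3
  exact h1.trans (mul_le_mul_of_nonneg_left h3 (norm_nonneg _))

theorem rho_hi (hC : ChnF α G b d) (n : ℕ) : pρ G b d n ≤ 3 * α n := by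
  have h1 := hC.hi n
  have h2 : √(b n) * √(b n) = b n := Real.mul_self_sqrt (bpos hC n).le
  have h3 : √(b n) * √(d n) ≤ √(b n) * √(b n) :=
    mul_le_mul_of_nonneg_left (sqrt_db hC n) (Real.sqrt_nonneg _)
  rw [h2] at h3
  exact (mul_le_mul_of_nonneg_left h3 (norm_nonneg _)).trans h1

theorem sq_cast {r : ℝ} (hr : 0 ≤ r) : ((r : ℝ) : ℂ) = ((√r : ℝ) : ℂ) * ((√r : ℝ) : ℂ) := by
  rw [← Complex.ofReal_mul, Real.mul_self_sqrt hr]

/-- the pair of the level `n` -/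
theorem pair (hC : ChnF α G b d) (hθ : 0 ≤ θ) (hθ' : θ ≤ 1) (hD : DSol G b d N 0 θ x y f g)
    (h0 : ∀ n ≤ N, x n 0 = (x0 α n : ℝ)) (hy : ∀ n, y n 0 = 0) (hU : Cnd α x y θ)
    (hP : Prt α x y f g θ) {n : ℕ} (hn : n < N) {τ : ℝ} (hτ : 0 ≤ τ) (hτ' : τ ≤ 1 / 10)
    (hs : ∀ t ∈ Icc (0 : ℝ) θ, |(x n t).im| ≤ τ * (x n t).re) :
    PairF (pρ G b d n) τ (2 * κr α (n + 1)) (√(d n) * εc α (n + 1)) θ (x n) (pA d x n)
      (pB G b y n) (pF G b d x y f n) (pH G b g n) where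
  hρ := (al_one hC n).trans (rho_lo hC n)
  hτ := hτ
  hτ' := hτ'
  hκ := by have := kap_pos hC (n + 1); positivity
  hκ' := by
    have hap := al_pos hC n
    have hb := al_big hC n
    have h1 := al_one hC n
    have e2 : 2 * κr α (n + 1) = 2 / α n ^ 4 := by
      unfold κr
      rw [div_eq_mul_inv]
    rw [e2, div_le_div_iff₀ (by positivity) (by norm_num)]
    have h2 : α n ≤ α n ^ 4 := by
      calc α n = α n ^ 1 := (pow_one _).symm
        _ ≤ α n ^ 4 := pow_le_pow_right₀ h1 (by norm_num)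
    have : (2 : ℝ) * 10 ^ 4 ≤ 10 ^ 100 := by norm_num
    linarith
  hE := mul_pos (Real.sqrt_pos.2 (hC.dpos n)) (eps_pos hC _)
  hθ := hθ
  hθ' := hθ'
  pc := fun t ht => (hD.dx n hn.le t ht).continuousWithinAt
  ps := fun t ht => ⟨hs t ht, (hD.one n t ht).1⟩
  dA := by
    intro t ht
    have h1 := (hD.dx (n + 1) hn t ht).const_mul (((√(d n) : ℝ)) : ℂ)
    refine h1.congr_deriv ?_
    have hG : ((‖G n‖ : ℝ) : ℂ) ≠ 0 := by exact_mod_cast (Gpos hC n).ne'
    have e1 : cX G b d (fun m => x m t) (fun m => y m t) (n + 1) =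
      conj (G n) * ((b n : ℝ) : ℂ) * y n t * conj (x n t) -
      conj (G (n + 1)) * ((b (n + 1) + d (n + 1) : ℝ) : ℂ) * y (n + 1) t *
        conj (x (n + 2) t) := rfl
    rw [e1, sq_cast (bpos hC n).le]
    unfold pρ pB pF ph
    rw [show n + 1 + 1 = n + 2 from rfl]
    push_cast
    field_simp
    ring
  dB := by
    intro t ht
    have h1 := (hD.dy n hn t ht).const_mul (((√(b n) : ℝ) : ℂ) * ph G n)
    refine h1.congr_deriv ?_
    have hG : ((‖G n‖ : ℝ) : ℂ) ≠ 0 := by exact_mod_cast (Gpos hC n).ne'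
    have e1 : cY G d (fun m => x m t) n = G n * ((d n : ℝ) : ℂ) * x n t * x (n + 1) t := rfl
    have e2 : conj (G n) * G n = ((‖G n‖ : ℝ) : ℂ) * ((‖G n‖ : ℝ) : ℂ) := by
      rw [Complex.conj_mul', sq]
    have e3 : ph G n * G n = ((‖G n‖ : ℝ) : ℂ) := by
      unfold ph
      rw [div_mul_eq_mul_div, e2, mul_div_assoc, div_self hG, mul_one]
    have e4 : ((√(b n) : ℝ) : ℂ) * ph G n * (cY G d (fun m => x m t) n + g n t) =
        ((√(b n) : ℝ) : ℂ) * (ph G n * G n) * ((d n : ℝ) : ℂ) * x n t * x (n + 1) t +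
          ((√(b n) : ℝ) : ℂ) * ph G n * g n t := by
      rw [e1]
      ring
    rw [e4, e3, sq_cast (hC.dpos n).le]
    unfold pρ pA pH
    push_cast
    ring
  A0 := by
    unfold pA
    rw [h0 (n + 1) hn]
    show _ = (((√(d n) * x0 α (n + 1) : ℝ)) : ℂ)
    push_cast
    rfl
  B0 := by
    unfold pB
    rw [hy, mul_zero]
  small := by
    intro t ht
    obtain ⟨s, hs, hm⟩ := mx_att hC hD h0 hn ht
    refine ⟨s, hs, ?_⟩
    have hk := kap_pos hC (n + 1)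
    have hsd : 0 ≤ √(d n) := Real.sqrt_nonneg _
    have h1 : √(d n) * Mx α x y (n + 1) t ≤ max ‖pA d x n s‖ ‖pB G b y n s‖ := by
      rw [norm_pA, norm_pB hC]
      refine (mul_le_mul_of_nonneg_left hm hsd).trans ?_
      rw [mul_max_of_nonneg _ _ hsd]
      exact max_le_max le_rfl (mul_le_mul_of_nonneg_right (sqrt_db hC n) (norm_nonneg _))
    have hf := (hP (n + 1) t ht).1
    have hg := (hP n t ht).2
    have hM0 : 0 ≤ Mx α x y (n + 1) t := (eps_pos hC (n + 1)).le.trans (eps_le_mx n t)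
    constructor
    · have h2 := drain_le hC hU (n + 1) ht
      have h3 := drain_num hC n
      have h4 : κr α (n + 1) * εc α (n + 1) ≤ κr α (n + 1) * Mx α x y (n + 1) t :=
        mul_le_mul_of_nonneg_left (eps_le_mx n t) hk.le
      have h5 : ‖-(conj (G (n + 1)) * ((b (n + 1) + d (n + 1) : ℝ) : ℂ) * y (n + 1) t *
          conj (x (n + 1 + 1) t)) + f (n + 1) t‖ ≤ 2 * κr α (n + 1) * Mx α x y (n + 1) t := by
        refine (norm_add_le _ _).trans ?_
        rw [norm_neg]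
        have h6 : ‖conj (G (n + 1)) * ((b (n + 1) + d (n + 1) : ℝ) : ℂ) * y (n + 1) t *
          conj (x (n + 1 + 1) t)‖ ≤ κr α (n + 1) * Mx α x y (n + 1) t :=
          h2.trans (h3.trans h4)
        linarith
      unfold pF
      rw [norm_mul, Complex.norm_real, Real.norm_eq_abs, abs_of_nonneg hsd]
      calc √(d n) * ‖-(conj (G (n + 1)) * ((b (n + 1) + d (n + 1) : ℝ) : ℂ) * y (n + 1) t *
          conj (x (n + 1 + 1) t)) + f (n + 1) t‖
          ≤ √(d n) * (2 * κr α (n + 1) * Mx α x y (n + 1) t) :=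
            mul_le_mul_of_nonneg_left h5 hsd
        _ = 2 * κr α (n + 1) * (√(d n) * Mx α x y (n + 1) t) := by ring
        _ ≤ _ := mul_le_mul_of_nonneg_left h1 (by positivity)
    · unfold pH
      rw [norm_mul, norm_mul, norm_ph hC, Complex.norm_real, Real.norm_eq_abs,
        abs_of_nonneg (Real.sqrt_nonneg _), mul_one]
      calc √(b n) * ‖g n t‖ ≤ (3 / 2 * √(d n)) * (κr α (n + 1) * Mx α x y (n + 1) t) :=
            mul_le_mul (sqrt_bd hC n) hg (norm_nonneg _) (by positivity)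
        _ ≤ 2 * κr α (n + 1) * (√(d n) * Mx α x y (n + 1) t) := by
            have : 0 ≤ κr α (n + 1) * (√(d n) * Mx α x y (n + 1) t) := by positivity
            nlinarith
        _ ≤ _ := mul_le_mul_of_nonneg_left h1 (by positivity)

/-- the widths of the sectors -/
noncomputable def tu (n : ℕ) : ℝ := (2 - (1 / 2) ^ n) / 100

theorem tu_nonneg (n : ℕ) : 0 ≤ tu n := by
  have : (1 / 2 : ℝ) ^ n ≤ 1 := pow_le_one₀ (by norm_num) (by norm_num)
  unfold tu
  linarith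

theorem tu_le (n : ℕ) : tu n ≤ 1 / 10 := by
  have : (0 : ℝ) ≤ (1 / 2) ^ n := by positivity
  unfold tu
  linarith

theorem re_nonneg {z : ℂ} {τ : ℝ} (hτ : 0 < τ) (h : |z.im| ≤ τ * z.re) : 0 ≤ z.re := by
  have h1 : 0 ≤ τ * z.re := (abs_nonneg _).trans h
  by_contra hneg
  have := mul_neg_of_pos_of_neg hτ (not_le.1 hneg)
  linarith

/-- the sectors -/
theorem sect (hPB : S_PAIRB) (hC : ChnF α G b d) (hθ : 0 ≤ θ) (hθ' : θ ≤ 1)
    (hD : DSol G b d N 0 θ x y f g) (h0 : ∀ n ≤ N, x n 0 = (x0 α n : ℝ)) (hy : ∀ n, y n 0 = 0)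
    (hU : Cnd α x y θ) (hP : Prt α x y f g θ) (n : ℕ) :
    n ≤ N → ∀ t ∈ Icc (0 : ℝ) θ, |(x n t).im| ≤ tu n * (x n t).re := by
  induction n with
  | zero =>
    intro _ t ht
    have h1 := lvl0 hC hθ' hD h0 hU hP t ht
    have h2 := Complex.abs_im_le_norm (x 0 t - 1 / 2)
    have h3 := Complex.abs_re_le_norm (x 0 t - 1 / 2)
    have e1 : (x 0 t - 1 / 2).im = (x 0 t).im := by simp
    have e2 : (x 0 t - 1 / 2).re = (x 0 t).re - 1 / 2 := by simp
    rw [e1] at h2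
    rw [e2] at h3
    have h4 := (abs_le.1 (h3.trans h1)).1
    have e3 : tu 0 = 1 / 100 := by unfold tu; norm_num
    rw [e3]
    have h5 := h2.trans h1
    norm_num at h4 h5 ⊢
    linarith
  | succ n ih =>
    intro hn t ht
    have hn' : n < N := hn
    have hpair := pair hC hθ hθ' hD h0 hy hU hP hn' (tu_nonneg n) (tu_le n) (ih hn'.le)
    have hε := eps_pos hC (n + 1)
    have hε1 : εc α (n + 1) ≤ 1 := inv_le_one_of_one_le₀ (one_le_pow₀ (al_one hC (n + 1)))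
    have hk := kap_pos hC (n + 1)
    have hΛ : 0 ≤ Real.log (5 / εc α (n + 1)) := by
      apply Real.log_nonneg
      rw [le_div_iff₀ hε]
      linarith
    have hnum := lam_num hC n
    have hp1 : (1 / 2 : ℝ) ^ n ≤ 1 := pow_le_one₀ (by norm_num) (by norm_num)
    have hp0 : (0 : ℝ) < (1 / 2) ^ n := by positivity
    have hsd : 0 < √(d n) := Real.sqrt_pos.2 (hC.dpos n)
    have h1 := hPB _ _ _ _ _ (Real.log (5 / εc α (n + 1))) _ _ _ _ _ hpair hΛ (by
      refine hnum.trans ?_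
      norm_num at hp1 hp0 ⊢
      linarith) (fun r hr => by
      rw [Real.exp_log (by positivity)]
      have e1 : √(d n) * εc α (n + 1) * (5 / εc α (n + 1)) = 5 * √(d n) := by
        field_simp
      rw [e1]
      refine (norm_add_le _ _).trans ?_
      rw [norm_pA, norm_pB hC]
      obtain ⟨u1, u2⟩ := hU n r hr
      have u3 := Uth_one hC (n + 1)
      have u4 : ‖x (n + 1) r‖ ≤ 2 := by linarith
      have u5 : ‖y n r‖ ≤ 2 := by linarith
      have u6 := sqrt_bd hC n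
      have v1 : √(d n) * ‖x (n + 1) r‖ ≤ √(d n) * 2 := mul_le_mul_of_nonneg_left u4 hsd.le
      have v2 : √(b n) * ‖y n r‖ ≤ (3 / 2 * √(d n)) * 2 :=
        mul_le_mul u6 u5 (norm_nonneg _) (by positivity)
      linarith) t ht
    have e2 : (pA d x n t).im = √(d n) * (x (n + 1) t).im := by
      unfold pA
      rw [Complex.im_ofReal_mul]
    have e3 : (pA d x n t).re = √(d n) * (x (n + 1) t).re := by
      unfold pA
      rw [Complex.re_ofReal_mul]
    rw [e2, e3, abs_mul, abs_of_pos hsd] at h1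
    have h2 : |(x (n + 1) t).im| ≤
        (tu n + 100 * (2 * κr α (n + 1)) * (1 + Real.log (5 / εc α (n + 1)))) *
          (x (n + 1) t).re := by
      have h3 : √(d n) * |(x (n + 1) t).im| ≤ √(d n) *
        ((tu n + 100 * (2 * κr α (n + 1)) * (1 + Real.log (5 / εc α (n + 1)))) *
          (x (n + 1) t).re) := by
        refine h1.trans (le_of_eq ?_)
        ring
      exact le_of_mul_le_mul_left h3 hsd
    have hpos : 0 < tu n + 100 * (2 * κr α (n + 1)) * (1 + Real.log (5 / εc α (n + 1))) := by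
      have := tu_nonneg n
      positivity
    have hre := re_nonneg hpos h2
    refine h2.trans (mul_le_mul_of_nonneg_right ?_ hre)
    have e4 : tu (n + 1) = tu n + (1 / 2) ^ n / 200 := by
      unfold tu
      rw [pow_succ]
      ring
    rw [e4]
    have h5 : 100 * (2 * κr α (n + 1)) * (1 + Real.log (5 / εc α (n + 1))) =
        100 * (2 * κr α (n + 1) * (1 + Real.log (5 / εc α (n + 1)))) := by ring
    rw [h5]
    have c2 : ∀ q : ℝ, 0 < q → 100 * (q / 10 ^ 10) ≤ q / 200 := by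
      intro q hq
      norm_num
      linarith
    have c3 := c2 _ hp0
    linarith

end lev

theorem t_LVL : S_PAIRA → S_PAIRB → S_LVL := by
  intro hPA hPB α G b d hC N θ x y f g hθ hθ' hD h0 hy hU hP
  constructor
  · intro t ht
    have h1 := lvl0 hC hθ' hD h0 hU hP t ht
    have h2 : ‖(1 / 2 : ℂ)‖ ≤ ‖x 0 t‖ + ‖x 0 t - 1 / 2‖ := by
      have e : (1 / 2 : ℂ) = x 0 t - (x 0 t - 1 / 2) := by ring
      conv_lhs => rw [e]
      exact norm_sub_le _ _
    have h3 : ‖(1 / 2 : ℂ)‖ = 1 / 2 := by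
      rw [norm_div, norm_one]
      norm_num
    rw [h3] at h2
    norm_num at h1 ⊢
    linarith
  refine ⟨fun n t => ‖pA d x n t + pB G b y n t‖ / √(d n), fun n hn => ?_⟩
  have hsect := sect hPB hC hθ hθ' hD h0 hy hU hP n hn.le
  have hpair := pair hC hθ hθ' hD h0 hy hU hP hn (tu_nonneg n) (tu_le n) hsect
  obtain ⟨k1, k2, k3, -⟩ := hPA _ _ _ _ _ _ _ _ _ _ hpair
  have hsd : 0 < √(d n) := Real.sqrt_pos.2 (hC.dpos n)
  have hsb : √(d n) ≤ √(b n) := sqrt_db hC n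
  refine ⟨?_, ?_, ?_, ?_⟩
  · show ‖pA d x n 0 + pB G b y n 0‖ / √(d n) = _
    rw [hpair.A0, hpair.B0, add_zero, Complex.norm_real, Real.norm_eq_abs,
      abs_of_pos (mul_pos hsd (eps_pos hC _))]
    field_simp
  · intro t ht
    obtain ⟨m1, m2, m3⟩ := k1 t ht
    have hν : 0 < ‖pA d x n t + pB G b y n t‖ / √(d n) := div_pos m1 hsd
    set M := ‖pA d x n t + pB G b y n t‖ with hM
    have hA := norm_pA (d := d) (x := x) n t
    have hB := norm_pB (y := y) hC n t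
    have hsq : ‖pA d x n t‖ ≤ 102 / 100 * M := by
      have h1 : ‖pA d x n t‖ ^ 2 ≤ (102 / 100 * M) ^ 2 := by
        have : 0 ≤ ‖pB G b y n t‖ ^ 2 := sq_nonneg _
        nlinarith [sq_nonneg M]
      exact le_of_sq_le_sq h1 (by positivity)
    have hsq' : ‖pB G b y n t‖ ≤ 102 / 100 * M := by
      have h1 : ‖pB G b y n t‖ ^ 2 ≤ (102 / 100 * M) ^ 2 := by
        have : 0 ≤ ‖pA d x n t‖ ^ 2 := sq_nonneg _
        nlinarith [sq_nonneg M]
      exact le_of_sq_le_sq h1 (by positivity)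
    refine ⟨hν, ?_, ?_, ?_⟩
    · rw [hA] at m2
      rw [← mul_div_assoc, div_le_iff₀ hsd]
      linarith
    · rw [hA] at hsq
      rw [← mul_div_assoc, le_div_iff₀ hsd]
      linarith
    · rw [hB] at hsq'
      rw [← mul_div_assoc, le_div_iff₀ hsd]
      have : √(d n) * ‖y n t‖ ≤ √(b n) * ‖y n t‖ :=
        mul_le_mul_of_nonneg_right hsb (norm_nonneg _)
      linarith
  · intro s t c hs hst ht hc hcr
    have h1 := k2 s t c hs hst ht hc hcr
    show ‖pA d x n s + pB G b y n s‖ / √(d n) * _ ≤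
      101 / 100 * (‖pA d x n t + pB G b y n t‖ / √(d n))
    have h2 : Real.exp (9 / 10 * α n * c * (t - s)) ≤
        Real.exp (9 / 10 * pρ G b d n * c * (t - s)) := by
      apply Real.exp_le_exp.2
      have := rho_lo hC n
      have hts : 0 ≤ t - s := by linarith
      gcongr
    have h3 : ‖pA d x n s + pB G b y n s‖ * Real.exp (9 / 10 * α n * c * (t - s)) ≤
        101 / 100 * ‖pA d x n t + pB G b y n t‖ :=
      (mul_le_mul_of_nonneg_left h2 (norm_nonneg _)).trans h1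
    rw [div_mul_eq_mul_div, ← mul_div_assoc]
    exact div_le_div_of_nonneg_right h3 hsd.le
  · intro s t hs hst ht
    have h1 := k3 s t hs hst ht
    show ‖pA d x n t + pB G b y n t‖ / √(d n) ≤ ‖pA d x n s + pB G b y n s‖ / √(d n) * _
    have h2 : Real.exp (3 * pρ G b d n * (t - s)) ≤ Real.exp (9 * α n * (t - s)) := by
      apply Real.exp_le_exp.2
      have := rho_hi hC n
      have hts : 0 ≤ t - s := by linarith
      have : 3 * pρ G b d n ≤ 9 * α n := by linarith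
      exact mul_le_mul_of_nonneg_right this hts
    rw [div_mul_eq_mul_div]
    exact div_le_div_of_nonneg_right
      (h1.trans (mul_le_mul_of_nonneg_left h2 (norm_nonneg _))) hsd.le

end Pool.Agent.Y809.EF.CH3
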